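import Pool.Agent.Lib.MP_359fef_co.Base

/-! # Task P: the weights `χ` on a finite poset -/

namespace Pool.Agent.MP_359fef_co

open Finset Matrix Module

universe u

section P
variable {α : Type*} [PartialOrder α] [Finite α]

theorem chi_off (S : Set α) (D : α) (hD : D ∉ S) : chi S D = 0 := by
  rw [chi_eq, if_neg hD]

open Classical in
theorem filter_above [Fintype α] (S : Set α) (D : α) (hD : D ∈ S) :
    univ.filter (fun E => E ∈ S ∧ D ≤ E) = insert D (aboveS S D) := by
  ext E
  simp only [mem_filter, mem_univ, true_and, mem_insert, mem_aboveS]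
  constructor
  · rintro ⟨h1, h2⟩
    rcases eq_or_lt_of_le h2 with h | h
    · left; exact h.symm
    · right; exact ⟨h1, h⟩
  · rintro (h | h)
    · subst h; exact ⟨hD, le_rfl⟩
    · exact ⟨h.1, h.2.le⟩

open Classical in
theorem chi_sum [Fintype α] (S : Set α) (D : α) (hD : D ∈ S) :
    ∑ E ∈ univ.filter (fun E => E ∈ S ∧ D ≤ E), chi S E = 1 := by
  rw [filter_above S D hD,
    sum_insert (by rw [mem_aboveS]; exact fun h => lt_irrefl _ h.2), chi_eq S D, if_pos hD]
  ring

open Classical in
/-- uniqueness -/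
theorem chi_unique [Fintype α] (S : Set α) (c : α → ℤ)
    (hc : ∀ D ∈ S, ∑ E ∈ univ.filter (fun E => E ∈ S ∧ D ≤ E), c E = 1) :
    ∀ D ∈ S, c D = chi S D := by
  intro D
  induction D using (wellFounded_gt (α := α)).induction with
  | _ D ih =>
    intro hD
    have h1 := hc D hD
    rw [filter_above S D hD,
      sum_insert (by rw [mem_aboveS]; exact fun h => lt_irrefl _ h.2)] at h1
    rw [chi_eq, if_pos hD]
    have h2 : ∑ E ∈ aboveS S D, c E = ∑ E ∈ aboveS S D, chi S E :=
      sum_congr rfl fun E hE => ih E (mem_aboveS.1 hE).2 (mem_aboveS.1 hE).1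
    linarith

/-- `χ_S(D)` depends only on the elements of `S` above `D` -/
theorem chi_congr (S T : Set α) (D : α) (h : ∀ E, D ≤ E → (E ∈ S ↔ E ∈ T)) :
    chi S D = chi T D := by
  classical
  revert h
  induction D using (wellFounded_gt (α := α)).induction with
  | _ D ih =>
    intro h
    have hab : aboveS S D = aboveS T D := by
      ext E
      simp only [mem_aboveS]
      constructor
      · rintro ⟨h1, h2⟩; exact ⟨(h E h2.le).1 h1, h2⟩
      · rintro ⟨h1, h2⟩; exact ⟨(h E h2.le).2 h1, h2⟩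
    have hs : ∑ E ∈ aboveS S D, chi S E = ∑ E ∈ aboveS T D, chi T E := by
      rw [← hab]
      refine sum_congr rfl fun E hE => ?_
      have hE' := (mem_aboveS.1 hE).2
      exact ih E hE' fun F hF => h F (hE'.le.trans hF)
    rw [chi_eq, chi_eq T D, hs]
    by_cases hD : D ∈ S
    · rw [if_pos hD, if_pos ((h D le_rfl).1 hD)]
    · rw [if_neg hD, if_neg (fun hh => hD ((h D le_rfl).2 hh))]

/-- closure principle, local form: if on `{E ∈ S : D ≤ E}` there is a closure operator `cl`
which moves `D`, then `χ_S(D) = 0`. -/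
theorem chi_closure (S : Set α) (D : α) (hD : D ∈ S) (cl : α → α)
    (h1 : ∀ E ∈ S, D ≤ E → cl E ∈ S) (h2 : ∀ E ∈ S, D ≤ E → E ≤ cl E)
    (h3 : ∀ E ∈ S, D ≤ E → ∀ F ∈ S, E ≤ F → cl E ≤ cl F)
    (h4 : ∀ E ∈ S, D ≤ E → cl (cl E) = cl E) (hne : cl D ≠ D) : chi S D = 0 := by
  classical
  haveI := Fintype.ofFinite α
  have main : ∀ E, E ∈ S → D ≤ E → cl E ≠ E → chi S E = 0 := by
    intro E
    induction E using (wellFounded_gt (α := α)).induction with
    | _ E ih =>
      intro hE hDE hcl
      have hle := h2 E hE hDE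
      have hlt : E < cl E := lt_of_le_of_ne hle (Ne.symm hcl)
      have s1 := chi_sum S E hE
      have s2 := chi_sum S (cl E) (h1 E hE hDE)
      have hsplit := sum_filter_add_sum_filter_not
        (univ.filter (fun F => F ∈ S ∧ E ≤ F)) (fun F => cl E ≤ F) (fun F => chi S F)
      have e1 : (univ.filter (fun F => F ∈ S ∧ E ≤ F)).filter (fun F => cl E ≤ F) =
          univ.filter (fun F => F ∈ S ∧ cl E ≤ F) := by
        ext F
        simp only [mem_filter, mem_univ, true_and]
        constructor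
        · rintro ⟨⟨a, _⟩, c⟩; exact ⟨a, c⟩
        · rintro ⟨a, c⟩; exact ⟨⟨a, hle.trans c⟩, c⟩
      have e2 : ∑ F ∈ (univ.filter (fun F => F ∈ S ∧ E ≤ F)).filter (fun F => ¬ cl E ≤ F),
          chi S F = chi S E := by
        rw [sum_eq_single_of_mem E]
        · simp only [mem_filter, mem_univ, true_and]
          exact ⟨⟨hE, le_rfl⟩, fun h => absurd (lt_of_lt_of_le hlt h) (lt_irrefl _)⟩
        · intro F hF hFE
          simp only [mem_filter, mem_univ, true_and] at hF
          obtain ⟨⟨hFS, hEF⟩, hn⟩ := hF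
          refine ih F (lt_of_le_of_ne hEF (Ne.symm hFE)) hFS (hDE.trans hEF) ?_
          intro hclF
          exact hn (by rw [← hclF]; exact h3 E hE hDE F hFS hEF)
      rw [e1, e2, s1, s2] at hsplit
      linarith
  exact main D hD le_rfl hne

/-- transport along an order isomorphism of the closed part: `S ⊆ α`, `T ⊆ β`, `φ : β → α`
order embedding mapping `T` bijectively onto `{D ∈ S : closed D}`, and `χ_S` vanishes on the
non-closed elements of `S`. -/
theorem chi_transport {β : Type*} [PartialOrder β] [Finite β] (S : Set α) (T : Set β)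
    (closed : α → Prop) (φ : β → α) (hφ : ∀ x y, φ x ≤ φ y ↔ x ≤ y)
    (hmap : ∀ x, x ∈ T ↔ φ x ∈ S) (hcl : ∀ x ∈ T, closed (φ x))
    (hsurj : ∀ D ∈ S, closed D → ∃ x, φ x = D)
    (hzero : ∀ D ∈ S, ¬ closed D → chi S D = 0) : ∀ x ∈ T, chi T x = chi S (φ x) := by
  classical
  haveI := Fintype.ofFinite α
  haveI := Fintype.ofFinite β
  have hinj : Function.Injective φ := by
    intro x y h
    exact le_antisymm ((hφ x y).1 h.le) ((hφ y x).1 h.ge)
  intro x hx
  symm
  refine chi_unique T (fun y => chi S (φ y)) ?_ x hx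
  intro y hy
  rw [← chi_sum S (φ y) ((hmap y).1 hy)]
  rw [← sum_image (f := fun E => chi S E) (g := φ) (fun a _ b _ h => hinj h)]
  refine sum_subset ?_ ?_
  · intro E hE
    simp only [mem_image, mem_filter, mem_univ, true_and] at hE ⊢
    obtain ⟨z, ⟨hz1, hz2⟩, rfl⟩ := hE
    exact ⟨(hmap z).1 hz1, (hφ y z).2 hz2⟩
  · intro E hE hnE
    simp only [mem_image, mem_filter, mem_univ, true_and] at hE hnE
    refine hzero E hE.1 ?_
    intro hc
    obtain ⟨z, rfl⟩ := hsurj E hE.1 hc
    exact hnE ⟨z, ⟨(hmap z).2 hE.1, (hφ y z).1 hE.2⟩, rfl⟩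
end P

end Pool.Agent.MP_359fef_co
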