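import Pool.Agent.Lib.MP_359fef_co.U0
import Pool.Agent.Lib.MP_359fef_co_h79.Chi

/-! # Task B -/

namespace Pool.Agent.MP_359fef_co

open Finset Matrix Module

universe u

section B
variable {K : Type u} [Field K] [Fintype K] {C : Cj K}

namespace TaskB

variable {W : Type u} [AddCommGroup W] [Module K W]

theorem H_self_fixed (H : Herm C W) (w : W) : C.σ (H.f w w) = H.f w w := (H.symm w w).symm

theorem H_comm_zero (H : Herm C W) {x y : W} (h : H.f x y = 0) : H.f y x = 0 := by
  rw [H.symm, h, map_zero]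

/-- the shift (w, μ) to (w + c p, μ - c̄ ⟨p, w⟩) -/
def tauB (H : Herm C W) (p : W) (c : K) (x : W × K) : W × K :=
  (x.1 + c • p, x.2 - C.σ c * H.f p x.1)

theorem tauB_inv (H : Herm C W) (p : W) (hp : H.f p p = 0) (c : K) (x : W × K) :
    tauB H p (-c) (tauB H p c x) = x := by
  unfold tauB
  ext
  · simp
  · simp only [H.add_right, H.smul_right, hp, map_neg]
    ring

/-- the shift as a permutation -/
def tauBE (H : Herm C W) (p : W) (hp : H.f p p = 0) (c : K) : W × K ≃ W × K where
  toFun := tauB H p c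
  invFun := tauB H p (-c)
  left_inv := fun x => tauB_inv H p hp c x
  right_inv := fun x => by
    have := tauB_inv H p hp (-c) x
    rwa [neg_neg] at this

theorem tauB_tr (H : Herm C W) (p : W) (hp : H.f p p = 0) (c : K) (x : W × K) :
    ((tauB H p c x).2 + C.σ (tauB H p c x).2 = - H.f (tauB H p c x).1 (tauB H p c x).1) ↔
      (x.2 + C.σ x.2 = - H.f x.1 x.1) := by
  unfold tauB
  simp only [H.add_right, H.smul_right, H.add_left, H.smul_left, hp, map_sub, map_mul, C.σ_σ,
    ← H.symm p x.1]
  constructor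
  · intro h
    linear_combination h
  · intro h
    linear_combination h

theorem DD_tauB (H : Herm C W) (h : W ≃ₗ[K] W) (hh : ∀ x y, H.f (h x) (h y) = H.f x y)
    (D : Submodule K W) (p : W) (hp : h p ∈ D) (c : K) (x : W × K)
    (hD : D ∈ DD H (Lam H h x.1 x.2)) :
    D ∈ DD H (Lam H h (tauB H p c x).1 (tauB H p c x).2) := by
  obtain ⟨hiso, hst⟩ := hD
  refine ⟨hiso, ?_⟩
  intro y hy
  obtain ⟨y', hy', α, h1, h2⟩ := hst y hy
  simp only at h1 h2
  refine ⟨y' + (α * c) • h p, D.add_mem hy' (D.smul_mem _ hp), α, ?_, ?_⟩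
  · simp only [tauB, h1, map_add, map_smul, smul_add, smul_smul]
    abel
  · simp only [tauB, H.add_left, H.smul_left, h2]
    have h3 : H.f p (y + α • x.1) = 0 := by
      rw [← hh, ← h1]; exact hiso _ hp _ hy'
    rw [H.add_right, H.smul_right] at h3
    linear_combination (C.σ c) * h3

theorem DD_tauB_iff (H : Herm C W) (h : W ≃ₗ[K] W) (hh : ∀ x y, H.f (h x) (h y) = H.f x y)
    (D : Submodule K W) (p : W) (hp : h p ∈ D) (hpp : H.f p p = 0) (c : K) (x : W × K) :
    D ∈ DD H (Lam H h x.1 x.2) ↔
      D ∈ DD H (Lam H h (tauB H p c x).1 (tauB H p c x).2) := by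
  constructor
  · exact DD_tauB H h hh D p hp c x
  · intro hD
    have := DD_tauB H h hh D p hp (-c) (tauB H p c x) hD
    rwa [tauB_inv H p hpp c x] at this

open Classical in
/-- the weight of an element of `K` -/
noncomputable def GB (C : Cj K) (a ν : K) : ℚ :=
  (if C.σ ν = -(a * ν) then 1 else 0) - (C.q : ℚ)⁻¹

theorem q_pos (C : Cj K) : (0 : ℚ) < C.q := by
  have := C.two_le_q
  exact_mod_cast (by omega : 0 < C.q)

theorem sum_GB (C : Cj K) (a : K) (ha : a * C.σ a = 1) : ∑ ν : K, GB C a ν = 0 := by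
  classical
  unfold GB
  rw [sum_sub_distrib, sum_boole, sum_const, card_univ, C.card_eq]
  have h1 := C.card_line a ha
  rw [Nat.card_eq_fintype_card, Fintype.card_subtype] at h1
  rw [h1, nsmul_eq_mul]
  have := (q_pos C).ne'
  push_cast
  field_simp
  ring

open Classical in
theorem wt_eq (H : Herm C W) (a : K) (w : W) (μ : K) :
    wt H a w μ = if μ + C.σ μ = - H.f w w then GB C a μ else 0 := by
  unfold wt GB
  congr 1

/-- the sum over the pairs w, μ -/
noncomputable def fB [Fintype W] (H : Herm C W) (h : W ≃ₗ[K] W) (a : K) (D : Submodule K W) :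
    ℚ :=
  ∑ w : W, ∑ μ : K, wt H a w μ * (chi (DD H (Lam H h w μ)) D : ℚ)

theorem fB_zero_a [Fintype W] (H : Herm C W) (h : W ≃ₗ[K] W)
    (hh : ∀ x y, H.f (h x) (h y) = H.f x y) (a : K) (ha : a * C.σ a = 1) (D : Submodule K W)
    (hD : ∀ x ∈ D, ∀ y ∈ D, H.f x y = 0) (p e : W) (hp : h p ∈ D) (he : e ∈ D)
    (hpe : H.f p e ≠ 0) : fB H h a D = 0 := by
  classical
  have hpp : H.f p p = 0 := by rw [← hh]; exact hD _ hp _ hp
  set S : W × K → ℚ := fun x => wt H a x.1 x.2 * (chi (DD H (Lam H h x.1 x.2)) D : ℚ) with hS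
  have e0 : fB H h a D = ∑ x : W × K, S x := by
    unfold fB
    rw [Fintype.sum_prod_type]
  have e1 : ∀ c : K, ∑ x : W × K, S x = ∑ x : W × K, S (tauB H p c x) := by
    intro c
    exact (Equiv.sum_comp (tauBE H p hpp c) S).symm
  have e2 : (Fintype.card K : ℚ) * ∑ x : W × K, S x = ∑ x : W × K, ∑ c : K, S (tauB H p c x) := by
    rw [sum_comm]
    rw [← sum_congr rfl (fun c _ => e1 c)]
    rw [sum_const, card_univ, nsmul_eq_mul]
  have e3 : ∀ x : W × K, ∑ c : K, S (tauB H p c x) = 0 := by
    intro x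
    have hchi : ∀ c, chi (DD H (Lam H h (tauB H p c x).1 (tauB H p c x).2)) D =
        chi (DD H (Lam H h x.1 x.2)) D := by
      intro c
      refine (chi_congr _ _ D fun E hE => ?_).symm
      exact DD_tauB_iff H h hh E p (hE hp) hpp c x
    by_cases hmem : D ∈ DD H (Lam H h x.1 x.2)
    · -- the value of `⟨p, w⟩` is nonzero
      have hpw : H.f p x.1 ≠ 0 := by
        intro h0
        obtain ⟨y', hy', α, h1, h2⟩ := hmem.2 e he
        simp only at h1 h2
        have h3 : H.f p (e + α • x.1) = 0 := by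
          rw [← hh, ← h1]; exact hD _ hp _ hy'
        rw [H.add_right, H.smul_right, h0, mul_zero, add_zero] at h3
        exact hpe h3
      simp only [hS, hchi]
      rw [← sum_mul]
      have : ∑ c : K, wt H a (tauB H p c x).1 (tauB H p c x).2 = 0 := by
        by_cases htr : x.2 + C.σ x.2 = - H.f x.1 x.1
        · have : ∀ c : K, wt H a (tauB H p c x).1 (tauB H p c x).2 =
              GB C a (x.2 - C.σ c * H.f p x.1) := by
            intro c
            rw [wt_eq, if_pos ((tauB_tr H p hpp c x).2 htr)]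
            rfl
          rw [sum_congr rfl (fun c _ => this c)]
          have hbij : Function.Bijective (fun c : K => x.2 - C.σ c * H.f p x.1) := by
            rw [← Finite.injective_iff_bijective]
            intro c c' hcc
            have h4 : C.σ c * H.f p x.1 = C.σ c' * H.f p x.1 := by
              have h5 : x.2 - C.σ c * H.f p x.1 = x.2 - C.σ c' * H.f p x.1 := hcc
              linear_combination -h5
            exact C.σ.injective (mul_right_cancel₀ hpw h4)
          rw [hbij.sum_comp (fun ν => GB C a ν)]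
          exact sum_GB C a ha
        · refine sum_eq_zero fun c _ => ?_
          rw [wt_eq, if_neg (fun hc => htr ((tauB_tr H p hpp c x).1 hc))]
      rw [this, zero_mul]
    · refine sum_eq_zero fun c _ => ?_
      simp only [hS, hchi]
      rw [chi_off _ _ hmem]
      simp
  rw [e0]
  rw [sum_congr rfl (fun x _ => e3 x)] at e2
  simp only [sum_const_zero, mul_eq_zero, Nat.cast_eq_zero] at e2
  rcases e2 with h | h
  · exact absurd h Fintype.card_ne_zero
  · exact h

theorem chi_zero_b [Finite W] (H : Herm C W) (h : W ≃ₗ[K] W)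
    (hh : ∀ x y, H.f (h x) (h y) = H.f x y) (D : Submodule K W)
    (hperp : ∀ p, h p ∈ D → ∀ e ∈ D, H.f p e = 0) (hns : ¬ ∀ x ∈ D, h x ∈ D) (w : W) (μ : K) :
    chi (DD H (Lam H h w μ)) D = 0 := by
  classical
  by_cases hmem : D ∈ DD H (Lam H h w μ)
  swap
  · exact chi_off _ _ hmem
  set P : Submodule K W := D.comap h.toLinearMap with hP
  have hPm : ∀ p, p ∈ P ↔ h p ∈ D := fun p => Iff.rfl
  have hD := hmem.1
  push Not at hns
  obtain ⟨e, he, hne⟩ := hns
  -- `⟨p, w⟩ = 0` for `p ∈ P`
  have hpw : ∀ p ∈ P, H.f p w = 0 := by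
    intro p hp
    obtain ⟨y', hy', α, h1, h2⟩ := hmem.2 e he
    simp only at h1 h2
    have hα : α ≠ 0 := by
      rintro rfl
      rw [zero_smul, add_zero] at h1
      exact hne (h1 ▸ hy')
    have h3 : H.f p (e + α • w) = 0 := by
      rw [← hh, ← h1]; exact hD _ hp _ hy'
    rw [H.add_right, H.smul_right, hperp p hp e he, zero_add] at h3
    exact (mul_eq_zero.1 h3).resolve_left hα
  -- `P` is orthogonal to every `E ≥ D` in the family
  have hPE : ∀ E ∈ DD H (Lam H h w μ), D ≤ E → ∀ p ∈ P, ∀ x ∈ E, H.f p x = 0 := by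
    intro E hE hDE p hp x hx
    obtain ⟨y', hy', α, h1, h2⟩ := hE.2 x hx
    simp only at h1 h2
    have h3 : H.f p (x + α • w) = 0 := by
      rw [← hh, ← h1]; exact hE.1 _ (hDE hp) _ hy'
    rw [H.add_right, H.smul_right, hpw p hp, mul_zero, add_zero] at h3
    exact h3
  have hPP : ∀ p ∈ P, ∀ p' ∈ P, H.f p p' = 0 := by
    intro p hp p' hp'
    rw [← hh]; exact hD _ hp _ hp'
  refine chi_closure _ D hmem (fun E => E ⊔ P) ?_ (fun E _ _ => le_sup_left)
    (fun E _ _ F _ hEF => sup_le_sup_right hEF P) (fun E _ _ => by simp) ?_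
  · intro E hE hDE
    refine ⟨?_, ?_⟩
    · intro x hx y hy
      obtain ⟨x1, hx1, p1, hp1, rfl⟩ := Submodule.mem_sup.1 hx
      obtain ⟨x2, hx2, p2, hp2, rfl⟩ := Submodule.mem_sup.1 hy
      rw [H.add_left, H.add_right, H.add_right, hE.1 _ hx1 _ hx2, hPP _ hp1 _ hp2,
        hPE E hE hDE p1 hp1 x2 hx2, H_comm_zero H (hPE E hE hDE p2 hp2 x1 hx1)]
      simp
    · intro x hx
      obtain ⟨x1, hx1, p1, hp1, rfl⟩ := Submodule.mem_sup.1 hx
      obtain ⟨y', hy', α, h1, h2⟩ := hE.2 x1 hx1
      simp only at h1 h2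
      refine ⟨y' + h p1, (le_sup_left : E ≤ E ⊔ P) (E.add_mem hy' (hDE hp1)), α, ?_, ?_⟩
      · simp only [h1, map_add]
        abel
      · simp only [H.add_right, h2, H_comm_zero H (hpw p1 hp1), add_zero]
  · intro hc
    have hPD : P ≤ D := by
      calc P ≤ D ⊔ P := le_sup_right
        _ = D := hc
    have hfin : finrank K P = finrank K D := by
      have : D = P.map h.toLinearMap := by
        rw [hP, Submodule.map_comap_eq_of_surjective h.surjective]
      conv_rhs => rw [this]
      exact (LinearEquiv.finrank_map_eq h P).symm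
    haveI : Module.Finite K W := Module.Finite.of_finite
    have hPD' : P = D := Submodule.eq_of_le_of_finrank_eq hPD hfin
    exact hne ((hPm e).1 (hPD' ▸ he))

theorem fB_zero [Fintype W] (H : Herm C W) (h : W ≃ₗ[K] W)
    (hh : ∀ x y, H.f (h x) (h y) = H.f x y) (a : K) (ha : a * C.σ a = 1) (D : Submodule K W)
    (hD : D ∉ DD H h.toLinearMap.graph) : fB H h a D = 0 := by
  classical
  by_cases hiso : ∀ x ∈ D, ∀ y ∈ D, H.f x y = 0
  · have hns : ¬ ∀ x ∈ D, h x ∈ D := by
      intro hst
      refine hD ⟨hiso, fun x hx => ⟨h x, hst x hx, ?_⟩⟩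
      rw [LinearMap.mem_graph_iff]
      rfl
    by_cases hperp : ∀ p, h p ∈ D → ∀ e ∈ D, H.f p e = 0
    · unfold fB
      refine sum_eq_zero fun w _ => sum_eq_zero fun μ _ => ?_
      rw [chi_zero_b H h hh D hperp hns w μ]
      simp
    · push Not at hperp
      obtain ⟨p, hp, e, he, hpe⟩ := hperp
      exact fB_zero_a H h hh a ha D hiso p e hp he hpe
  · unfold fB
    refine sum_eq_zero fun w _ => sum_eq_zero fun μ _ => ?_
    rw [chi_off _ _ (fun hmem => hiso hmem.1)]
    simp

open Classical in
theorem sum_wt [Fintype W] (H : Herm C W) (a : K) (ha : a * C.σ a = 1) (w : W) :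
    ∑ μ : K, wt H a w μ =
      if a = 1 then (if H.f w w = 0 then (C.q : ℚ) else 0) - 1 else 0 := by
  have hs : C.σ (H.f w w) = H.f w w := H_self_fixed H w
  have hq := q_pos C
  have h0 : ∀ μ : K, wt H a w μ =
      (if (μ + C.σ μ = - H.f w w ∧ C.σ μ = -(a * μ)) then (1 : ℚ) else 0) -
        (if μ + C.σ μ = - H.f w w then (1 : ℚ) else 0) * (C.q : ℚ)⁻¹ := by
    intro μ
    rw [wt_eq]
    unfold GB
    by_cases h1 : μ + C.σ μ = - H.f w w
    · by_cases h2 : C.σ μ = -(a * μ)
      · rw [if_pos h1, if_pos h2, if_pos ⟨h1, h2⟩, if_pos h1, one_mul]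
      · rw [if_pos h1, if_neg h2, if_neg (fun hc => h2 hc.2), if_pos h1, one_mul]
    · rw [if_neg h1, if_neg (fun hc => h1 hc.1), if_neg h1, zero_mul, sub_zero]
  have htr := C.card_tr (- H.f w w) (by rw [map_neg, hs])
  rw [Nat.card_eq_fintype_card, Fintype.card_subtype] at htr
  rw [sum_congr rfl (fun μ _ => h0 μ), sum_sub_distrib, ← sum_mul, sum_boole, sum_boole, htr,
    mul_inv_cancel₀ hq.ne']
  by_cases ha1 : a = 1
  · subst ha1
    rw [if_pos rfl]
    by_cases hw : H.f w w = 0
    · rw [if_pos hw]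
      have hl := C.card_line 1 (by simp)
      rw [Nat.card_eq_fintype_card, Fintype.card_subtype] at hl
      have : (univ.filter fun μ : K => μ + C.σ μ = - H.f w w ∧ C.σ μ = -(1 * μ)) =
          univ.filter fun μ : K => C.σ μ = -(1 * μ) := by
        ext μ
        simp only [mem_filter, mem_univ, true_and, and_iff_right_iff_imp]
        intro h
        rw [h, hw]
        ring
      rw [this, hl]
    · rw [if_neg hw]
      have : (univ.filter fun μ : K => μ + C.σ μ = - H.f w w ∧ C.σ μ = -(1 * μ)) = ∅ := by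
        ext μ
        simp only [mem_filter, mem_univ, true_and, notMem_empty, iff_false]
        rintro ⟨h1, h2⟩
        apply hw
        rw [h2] at h1
        linear_combination h1
      rw [this]
      simp
  · rw [if_neg ha1]
    have h1a : (1 : K) - a ≠ 0 := sub_ne_zero.2 (Ne.symm ha1)
    have : (univ.filter fun μ : K => μ + C.σ μ = - H.f w w ∧ C.σ μ = -(a * μ)) =
        {- H.f w w / (1 - a)} := by
      ext μ
      simp only [mem_filter, mem_univ, true_and, mem_singleton]
      constructor
      · rintro ⟨h1, h2⟩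
        rw [h2] at h1
        rw [eq_div_iff h1a]
        linear_combination h1
      · rintro rfl
        have h1a' : (1 : K) - C.σ a ≠ 0 := by
          intro h
          apply h1a
          have : C.σ a = 1 := by linear_combination -h
          rw [this, mul_one] at ha
          rw [ha, sub_self]
        have key : C.σ (- H.f w w / (1 - a)) = -(a * (- H.f w w / (1 - a))) := by
          rw [map_div₀, map_neg, hs, map_sub, map_one]
          field_simp
          linear_combination (H.f w w) * ha
        refine ⟨?_, key⟩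
        rw [key]
        field_simp
        ring
    rw [this]
    simp

open Classical in
theorem fB_sum [Fintype W] [Fintype (Submodule K W)] (H : Herm C W) (h : W ≃ₗ[K] W)
    (hh : ∀ x y, H.f (h x) (h y) = H.f x y) (a : K) (ha : a * C.σ a = 1) (D : Submodule K W)
    (hiso : ∀ x ∈ D, ∀ y ∈ D, H.f x y = 0) (hst : ∀ x ∈ D, h x ∈ D) :
    ∑ E ∈ univ.filter (fun E => D ≤ E), fB H h a E =
      if a = 1 then ((C.q : ℚ) - 1) * C.X ^ finrank K W else 0 := by
  have h1 : ∀ (w : W) (μ : K), ∑ E ∈ univ.filter (fun E => D ≤ E),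
      (chi (DD H (Lam H h w μ)) E : ℚ) = if w ∈ H.perp D then 1 else 0 := by
    intro w μ
    by_cases hw : w ∈ H.perp D
    · rw [if_pos hw]
      have hmem : D ∈ DD H (Lam H h w μ) := by
        refine ⟨hiso, fun x hx => ⟨h x, hst x hx, 0, ?_, ?_⟩⟩
        · simp
        · simp only [mul_zero]
          exact H_comm_zero H (hw x hx)
      have := chi_sum (DD H (Lam H h w μ)) D hmem
      have h2 : ∑ E ∈ univ.filter (fun E => D ≤ E), chi (DD H (Lam H h w μ)) E = 1 := by
        rw [← this]
        symm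
        refine sum_subset ?_ ?_
        · intro E hE
          simp only [mem_filter, mem_univ, true_and] at hE ⊢
          exact hE.2
        · intro E hE hnE
          simp only [mem_filter, mem_univ, true_and] at hE hnE
          exact chi_off _ _ (fun hc => hnE ⟨hc, hE⟩)
      exact_mod_cast h2
    · rw [if_neg hw]
      refine sum_eq_zero fun E hE => ?_
      simp only [mem_filter, mem_univ, true_and] at hE
      rw [chi_off, Int.cast_zero]
      intro hmem
      apply hw
      intro x hx
      obtain ⟨y', hy', α, h1, h2⟩ := hmem.2 x (hE hx)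
      simp only at h1 h2
      by_contra hne
      have hwx : H.f w x ≠ 0 := fun h0 => hne (H_comm_zero H h0)
      have hα : α ≠ 0 := by
        rintro rfl
        rw [mul_zero] at h2
        exact hwx h2
      have hhw : h w ∈ E := by
        have h3 : α • h w = y' - h x := by
          rw [h1, map_add, map_smul]
          abel
        have h4 : α • h w ∈ E := by
          rw [h3]
          exact E.sub_mem hy' (hE (hst x hx))
        have h5 := E.smul_mem α⁻¹ h4
        rwa [smul_smul, inv_mul_cancel₀ hα, one_smul] at h5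
      apply hwx
      rw [← hh]
      exact hmem.1 _ hhw _ (hE (hst x hx))
  have h2 : ∑ E ∈ univ.filter (fun E => D ≤ E), fB H h a E =
      ∑ w : W, ∑ μ : K, wt H a w μ * if w ∈ H.perp D then (1 : ℚ) else 0 := by
    unfold fB
    rw [sum_comm]
    refine sum_congr rfl fun w _ => ?_
    rw [sum_comm]
    refine sum_congr rfl fun μ _ => ?_
    rw [← mul_sum, h1 w μ]
  rw [h2]
  have h3 : ∑ w : W, ∑ μ : K, wt H a w μ * (if w ∈ H.perp D then (1 : ℚ) else 0) =
      ∑ w ∈ univ.filter (fun w => w ∈ H.perp D), ∑ μ : K, wt H a w μ := by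
    rw [sum_filter]
    refine sum_congr rfl fun w _ => ?_
    by_cases hw : w ∈ H.perp D <;> simp [hw]
  rw [h3, sum_congr rfl (fun w _ => sum_wt H a ha w)]
  by_cases ha1 : a = 1
  · simp only [if_pos ha1]
    rw [sum_sub_distrib, sum_const, nsmul_eq_mul, mul_one]
    have e1 : ∑ w ∈ univ.filter (fun w => w ∈ H.perp D), (if H.f w w = 0 then (C.q : ℚ) else 0) =
        C.q * (Nat.card {w : H.perp D // H.f w.1 w.1 = 0} : ℚ) := by
      rw [← sum_filter, sum_const, nsmul_eq_mul, mul_comm]
      congr 2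
      rw [Nat.card_eq_fintype_card, Fintype.card_subtype, filter_filter]
      have : (univ.filter fun w : W => w ∈ H.perp D ∧ H.f w w = 0) =
          (univ.filter fun w : H.perp D => H.f w.1 w.1 = 0).map
            ⟨Subtype.val, Subtype.val_injective⟩ := by
        ext w
        simp [and_comm]
      rw [this, card_map]
    have e2 : ((univ.filter (fun w => w ∈ H.perp D)).card : ℚ) = (Nat.card (H.perp D) : ℚ) := by
      congr 1
      rw [Nat.card_eq_fintype_card]
      exact (Fintype.card_subtype _).symm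
    rw [e1, e2, H.card_iso_perp D hiso]
    ring
  · simp [ha1]

open Classical in
/-- uniqueness, rational version -/
theorem chi_unique_rat {α : Type*} [PartialOrder α] [Fintype α] (S : Set α) (c : α → ℚ) (r : ℚ)
    (hc : ∀ D ∈ S, ∑ E ∈ univ.filter (fun E => E ∈ S ∧ D ≤ E), c E = r) :
    ∀ D ∈ S, c D = r * chi S D := by
  intro D
  induction D using (wellFounded_gt (α := α)).induction with
  | _ D ih =>
    intro hD
    have h1 := hc D hD
    rw [filter_above S D hD,
      sum_insert (by rw [mem_aboveS]; exact fun h => lt_irrefl _ h.2)] at h1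
    rw [chi_eq, if_pos hD]
    have h2 : ∑ E ∈ aboveS S D, c E = r * ∑ E ∈ aboveS S D, (chi S E : ℚ) := by
      rw [mul_sum]
      exact sum_congr rfl fun E hE => ih E (mem_aboveS.1 hE).2 (mem_aboveS.1 hE).1
    push_cast
    linarith

open Classical in
theorem fB_eq [Fintype W] [Fintype (Submodule K W)] (H : Herm C W) (h : W ≃ₗ[K] W)
    (hh : ∀ x y, H.f (h x) (h y) = H.f x y) (a : K) (ha : a * C.σ a = 1) (D : Submodule K W) :
    fB H h a D = (if a = 1 then ((C.q : ℚ) - 1) * C.X ^ finrank K W else 0) *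
      (chi (DD H h.toLinearMap.graph) D : ℚ) := by
  by_cases hD : D ∈ DD H h.toLinearMap.graph
  · refine chi_unique_rat (DD H h.toLinearMap.graph) (fun D => fB H h a D) _ ?_ D hD
    intro D hD
    have hst : ∀ x ∈ D, h x ∈ D := by
      intro x hx
      obtain ⟨x', hx', hg⟩ := hD.2 x hx
      rw [LinearMap.mem_graph_iff] at hg
      have : x' = h x := hg
      exact this ▸ hx'
    rw [← fB_sum H h hh a ha D hD.1 hst]
    refine sum_subset ?_ ?_
    · intro E hE
      simp only [mem_filter, mem_univ, true_and] at hE ⊢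
      exact hE.2
    · intro E hE hnE
      simp only [mem_filter, mem_univ, true_and] at hE hnE
      exact fB_zero H h hh a ha E (fun hc => hnE ⟨hc, hE⟩)
  · rw [fB_zero H h hh a ha D hD, chi_off _ _ hD]
    simp

end TaskB

open TaskB in
/-- Task B. -/
theorem taskB (a : K) (ha : a ^ (C.q + 1) = 1) {W : Type u} [AddCommGroup W] [Module K W]
    [Fintype W] (H : Herm C W) (h : W ≃ₗ[K] W) (hh : ∀ x y, H.f (h x) (h y) = H.f x y) (m : ℕ) :
    ∑ w : W, ∑ μ : K, wt H a w μ * nt H (Lam H h w μ) m =
      (open Classical in if a = 1 then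
        ((C.q : ℚ) - 1) * C.X ^ finrank K W * nt H h.toLinearMap.graph m else 0) := by
  classical
  have ha' : a * C.σ a = 1 := (C.norm_one_iff a).1 ha
  unfold nt
  letI := Fintype.ofFinite (Submodule K W)
  have h1 : ∑ w : W, ∑ μ : K, wt H a w μ *
      (∑ D : Submodule K W, (Nat.card D : ℚ) ^ m * (chi (DD H (Lam H h w μ)) D : ℚ)) =
      ∑ D : Submodule K W, (Nat.card D : ℚ) ^ m * fB H h a D := by
    unfold fB
    simp only [mul_sum]
    rw [sum_congr rfl (fun w _ => sum_comm), sum_comm]
    refine sum_congr rfl fun D _ => sum_congr rfl fun w _ => sum_congr rfl fun μ _ => ?_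
    ring
  rw [h1]
  by_cases ha1 : a = 1
  · rw [if_pos ha1, mul_sum]
    refine sum_congr rfl fun D _ => ?_
    rw [fB_eq H h hh a ha' D, if_pos ha1]
    ring
  · rw [if_neg ha1]
    refine sum_eq_zero fun D _ => ?_
    rw [fB_eq H h hh a ha' D, if_neg ha1]
    ring

end B

end Pool.Agent.MP_359fef_co
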